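import Mathlib

set_option autoImplicit false

open Finset Matrix

namespace Pool.Agent.Results.MP_3f07b9_an.Away

/-- The mean of a vector. -/
noncomputable def mean {n : ℕ} (x : Fin n → ℝ) : ℝ := (∑ k, x k) / n

/-- The Pearson correlation. -/
noncomputable def corr {n : ℕ} (x y : Fin n → ℝ) : ℝ :=
  (∑ k, (x k - mean x) * (y k - mean y)) /
    √((∑ k, (x k - mean x) ^ 2) * ∑ k, (y k - mean y) ^ 2)

/-- The correlation map. -/
noncomputable def C {n : ℕ} (A : Matrix (Fin n) (Fin n) ℝ) : Matrix (Fin n) (Fin n) ℝ :=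
  Matrix.of fun i j => corr (A i) (A j)

def Good {n : ℕ} (A : Matrix (Fin n) (Fin n) ℝ) : Prop :=
  (∀ i, A i i = 1) ∧ (∀ i j, A i j ≤ 1) ∧ ∀ i, ∃ j, A i j ≠ 1

lemma unit {n : ℕ} (x : Fin n → ℝ) (i j : Fin n) (h : x j ≠ x i) :
    ∃ u : Fin n → ℝ, ∃ s > 0, (∀ k, x k - mean x = s * u k) ∧ ∑ k, u k = 0 ∧ ∑ k, u k ^ 2 = 1 := by
  have hn : (0 : ℝ) < n := by exact_mod_cast Fin.pos i
  have h0 : 0 < ∑ k, (x k - mean x) ^ 2 := by
    refine sum_pos' (fun k _ => sq_nonneg _) ?_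
    by_cases hi : x i = mean x
    · exact ⟨j, mem_univ _, sq_pos_of_ne_zero (sub_ne_zero.2 (hi ▸ h))⟩
    · exact ⟨i, mem_univ _, sq_pos_of_ne_zero (sub_ne_zero.2 hi)⟩
  set S := ∑ k, (x k - mean x) ^ 2 with hS
  have s0 := Real.sqrt_pos.2 h0
  refine ⟨fun k => (x k - mean x) / √S, √S, s0, fun k => by field_simp, ?_, ?_⟩
  · rw [← sum_div, sum_sub_distrib, sum_const, card_univ, Fintype.card_fin, nsmul_eq_mul, mean,
      mul_div_cancel₀ _ hn.ne', sub_self, zero_div]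
  · simp only [div_pow, Real.sq_sqrt h0.le]
    rw [← sum_div, div_self h0.ne']

lemma corr_eq {n : ℕ} {x y u v : Fin n → ℝ} {s t : ℝ} (hs : 0 < s) (ht : 0 < t)
    (hx : ∀ k, x k - mean x = s * u k) (hy : ∀ k, y k - mean y = t * v k) (hu : ∑ k, u k ^ 2 = 1)
    (hv : ∑ k, v k ^ 2 = 1) : corr x y = 1 - (∑ k, (u k - v k) ^ 2) / 2 := by
  have e : ∑ k, (u k - v k) ^ 2 = ∑ k, u k ^ 2 + ∑ k, v k ^ 2 - 2 * ∑ k, u k * v k := by
    rw [mul_sum, ← sum_add_distrib, ← sum_sub_distrib]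
    exact sum_congr rfl fun k _ => by ring
  have e2 : ∑ k, s * u k * (t * v k) = s * t * ∑ k, u k * v k := by
    rw [mul_sum]
    exact sum_congr rfl fun k _ => by ring
  simp only [corr, hx, hy, mul_pow, ← mul_sum, hu, hv, e, e2, mul_one]
  rw [← mul_pow, Real.sqrt_sq (mul_pos hs ht).le]
  field_simp
  ring

lemma top {n : ℕ} (u : Fin n → ℝ) (j : Fin n) (hj : ∀ k, u k ≤ u j) (h0 : ∑ k, u k = 0)
    (h1 : ∑ k, u k ^ 2 = 1) : 0 ≤ u j ∧ 1 ≤ (n : ℝ) ^ 3 * u j ^ 2 := by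
  have hn : (1 : ℝ) ≤ n := by exact_mod_cast Fin.pos j
  have e : ∑ k, (u j - u k) = n * u j := by simp [sum_sub_distrib, h0]
  have a0 : ∀ k ∈ (univ : Finset (Fin n)), 0 ≤ u j - u k := fun k _ => sub_nonneg.2 (hj k)
  have a1 : 0 ≤ u j := by
    have := sum_nonneg a0
    rw [e] at this
    exact nonneg_of_mul_nonneg_right this (by linarith) |> fun h => h
  refine ⟨a1, ?_⟩
  have a2 : ∀ k ∈ (univ : Finset (Fin n)), u k ^ 2 ≤ (n * u j) ^ 2 := by
    intro k hk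
    have := single_le_sum a0 hk
    rw [e] at this
    apply sq_le_sq'
    · linarith
    · nlinarith [hj k]
  have := sum_le_sum a2
  rw [h1, sum_const, card_univ, Fintype.card_fin, nsmul_eq_mul] at this
  linarith

lemma step {n : ℕ} {A : Matrix (Fin n) (Fin n) ℝ} (hA : Good A) :
    Good (C A) ∧ ∀ i, ∃ j, C A i j ≤ 1 - 1 / (2 * (n : ℝ) ^ 3) := by
  have h : ∀ i, ∃ u : Fin n → ℝ, ∃ s > 0, (∀ k, A i k - mean (A i) = s * u k) ∧ ∑ k, u k = 0 ∧
      ∑ k, u k ^ 2 = 1 := fun i => by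
    obtain ⟨j, hj⟩ := hA.2.2 i
    exact unit (A i) i j (by rwa [hA.1 i])
  choose u s hs hx h0 h1 using h
  have e : ∀ i j, C A i j = 1 - (∑ k, (u i k - u j k) ^ 2) / 2 := fun i j =>
    corr_eq (hs i) (hs j) (hx i) (hx j) (h1 i) (h1 j)
  have key : ∀ i, ∃ j, C A i j ≤ 1 - 1 / (2 * (n : ℝ) ^ 3) := by
    intro i
    have hn : (0 : ℝ) < n := by exact_mod_cast Fin.pos i
    obtain ⟨j, -, hj⟩ := exists_le_of_sum_le (s := univ) (f := u i) (g := fun _ => 0)
      ⟨i, mem_univ _⟩ (by simp [h0])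
    obtain ⟨b1, b2⟩ := top (u j) j (fun k => by
      refine le_of_mul_le_mul_left ?_ (hs j)
      rw [← hx, ← hx, hA.1 j]
      linarith [hA.2.1 j k]) (h0 j) (h1 j)
    refine ⟨j, ?_⟩
    have c1 := single_le_sum (f := fun k => (u i k - u j k) ^ 2) (fun k _ => sq_nonneg _)
      (mem_univ j)
    have c2 : u j j ^ 2 ≤ (u i j - u j j) ^ 2 := by nlinarith
    have c3 : 1 / (2 * (n : ℝ) ^ 3) ≤ u j j ^ 2 / 2 := by
      rw [div_le_iff₀ (by positivity)]
      linarith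
    rw [e]
    linarith
  refine ⟨⟨fun i => by simp [e], fun i j => ?_, fun i => ?_⟩, key⟩
  · rw [e]
    have := sum_nonneg (s := univ) (f := fun k => (u i k - u j k) ^ 2) fun k _ => sq_nonneg _
    linarith
  · obtain ⟨j, hj⟩ := key i
    have hn : (0 : ℝ) < n := by exact_mod_cast Fin.pos i
    have : 0 < 1 / (2 * (n : ℝ) ^ 3) := by positivity
    exact ⟨j, by linarith⟩

lemma init {n : ℕ} {A : Matrix (Fin n) (Fin n) ℝ} (hA : A.PosSemidef) (h1 : ∀ i, A i i = 1)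
    (hne : A ≠ Matrix.of fun _ _ => 1) : Good A := by
  have sy : ∀ i j, A j i = A i j := fun i j => by simpa using hA.1.apply i j
  have le : ∀ i j, A i j ≤ 1 := fun i j => by
    have := hA.dotProduct_mulVec_nonneg (Pi.single i 1 - Pi.single j 1)
    simp [mulVec_sub, dotProduct_sub, sub_dotProduct, h1, sy i j] at this
    linarith
  refine ⟨h1, le, fun i => ?_⟩
  by_contra hc
  push Not at hc
  apply hne
  ext j k
  have := hA.dotProduct_mulVec_nonneg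
    (Pi.single j 1 + Pi.single k 1 - Pi.single i 1 - Pi.single i 1)
  simp [mulVec_sub, dotProduct_sub, sub_dotProduct, mulVec_add, dotProduct_add, add_dotProduct,
    h1, sy j k, sy i j, sy i k, hc] at this
  simp only [of_apply]
  linarith [le j k]

theorem result (n : ℕ) (hn : 1 ≤ n) (A : Matrix (Fin n) (Fin n) ℝ) (hA : A.PosSemidef)
    (h1 : ∀ i, A i i = 1) (hne : A ≠ Matrix.of fun _ _ => 1) (k : ℕ) (hk : 1 ≤ k) :
    ∃ i j, 1 / (2 * (n : ℝ) ^ 3) ≤ |C^[k] A i j - 1| := by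
  have g : ∀ m, Good (C^[m] A) := by
    intro m
    induction m with
    | zero => exact init hA h1 hne
    | succ m ih => rw [Function.iterate_succ_apply']; exact (step ih).1
  obtain ⟨m, rfl⟩ : ∃ m, k = m + 1 := ⟨k - 1, by omega⟩
  obtain ⟨j, hj⟩ := (step (g m)).2 ⟨0, hn⟩
  refine ⟨⟨0, hn⟩, j, ?_⟩
  rw [Function.iterate_succ_apply', abs_sub_comm]
  exact le_trans (by linarith) (le_abs_self _)

end Pool.Agent.Results.MP_3f07b9_an.Away
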